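import Mathlib

set_option autoImplicit false

namespace Pool.Agent.Helper323.Choc

/-- value at `x` of the polynomial with the integer coefficient list `l` -/
def evR {R : Type} [CommRing R] (x : R) : List ℤ → R
  | [] => 0
  | a :: l => (a : R) + x * evR x l

/-- the same for integers, in a form which the kernel evaluates -/
def evZ (x : ℤ) : List ℤ → ℤ
  | [] => 0
  | a :: l => a + x * evZ x l

theorem evR_eq_evZ (x : ℤ) : ∀ l, evR x l = evZ x l
  | [] => rfl
  | a :: l => by simp [evR, evZ, evR_eq_evZ x l]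

/-- sum of coefficient lists -/
def addL : List ℤ → List ℤ → List ℤ
  | [], m => m
  | a :: l, [] => a :: l
  | a :: l, b :: m => (a + b) :: addL l m

/-- scalar multiple of a coefficient list -/
def smulL (c : ℤ) : List ℤ → List ℤ
  | [] => []
  | a :: l => (c * a) :: smulL c l

/-- product of coefficient lists -/
def mulL : List ℤ → List ℤ → List ℤ
  | [], _ => []
  | a :: l, m => addL (smulL a m) (0 :: mulL l m)

/-- sum of the absolute values of the coefficients -/
def l1 : List ℤ → ℕ
  | [] => 0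
  | a :: l => a.natAbs + l1 l

section
variable {R : Type} [CommRing R] (x : R)

theorem evR_addL : ∀ l m, evR x (addL l m) = evR x l + evR x m
  | [], m => by simp [addL, evR]
  | a :: l, [] => by simp [addL, evR]
  | a :: l, b :: m => by
    simp only [addL, evR, evR_addL l m]
    push_cast
    ring

theorem evR_smulL (c : ℤ) : ∀ l, evR x (smulL c l) = c * evR x l
  | [] => by simp [smulL, evR]
  | a :: l => by
    simp only [smulL, evR, evR_smulL c l]
    push_cast
    ring

theorem evR_mulL : ∀ l m, evR x (mulL l m) = evR x l * evR x m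
  | [], m => by simp [mulL, evR]
  | a :: l, m => by
    simp only [mulL, evR_addL, evR_smulL, evR, evR_mulL l m]
    push_cast
    ring

theorem evR_single (a : ℤ) : evR x [a] = a := by simp [evR]

end

theorem norm_ev_le (z : ℂ) (hz : ‖z‖ ≤ 1) : ∀ l, ‖evR z l‖ ≤ (l1 l : ℝ)
  | [] => by simp [evR, l1]
  | a :: l => by
    have ih := norm_ev_le z hz l
    simp only [evR, l1]
    have h1 : ‖(a : ℂ)‖ = (a.natAbs : ℝ) := by
      rw [Complex.norm_intCast, Nat.cast_natAbs, Int.cast_abs]
    calc ‖(a : ℂ) + z * evR z l‖ ≤ ‖(a : ℂ)‖ + ‖z * evR z l‖ := norm_add_le _ _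
      _ ≤ (a.natAbs : ℝ) + 1 * (l1 l : ℝ) := by
        rw [h1, norm_mul]
        gcongr
      _ = ((a.natAbs + l1 l : ℕ) : ℝ) := by push_cast; ring

theorem l1_addL : ∀ l m, l1 (addL l m) ≤ l1 l + l1 m
  | [], m => by simp [addL, l1]
  | a :: l, [] => by simp [addL, l1]
  | a :: l, b :: m => by
    have h := l1_addL l m
    have h2 := Int.natAbs_add_le a b
    simp only [addL, l1]
    omega

theorem l1_smulL (c : ℤ) : ∀ l, l1 (smulL c l) = c.natAbs * l1 l
  | [] => by simp [smulL, l1]
  | a :: l => by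
    simp only [smulL, l1, l1_smulL c l, Int.natAbs_mul]
    ring

theorem l1_mulL : ∀ l m, l1 (mulL l m) ≤ l1 l * l1 m
  | [], m => by simp [mulL, l1]
  | a :: l, m => by
    have h := l1_mulL l m
    have h2 := l1_addL (smulL a m) (0 :: mulL l m)
    rw [l1_smulL] at h2
    simp only [mulL, l1] at h2 ⊢
    have h3 : (a.natAbs + l1 l) * l1 m = a.natAbs * l1 m + l1 l * l1 m := by ring
    rw [h3]
    simp at h2
    omega

/-- a list with small entries whose value at `B` vanishes is zero -/
theorem zero_of_evZ (B : ℕ) (z : ℂ) : ∀ l : List ℤ, l1 l < B → evZ (B : ℤ) l = 0 → evR z l = 0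
  | [], _, _ => rfl
  | a :: l, h1, h2 => by
    simp only [l1] at h1
    simp only [evZ] at h2
    have hdvd : (B : ℤ) ∣ a := ⟨-evZ (B : ℤ) l, by linarith⟩
    have ha : a = 0 := by
      apply Int.eq_zero_of_abs_lt_dvd hdvd
      rw [Int.abs_eq_natAbs]
      exact_mod_cast (by omega : a.natAbs < B)
    subst ha
    have hB : (B : ℤ) ≠ 0 := by
      have : 0 < B := by omega
      exact_mod_cast this.ne'
    have h3 : evZ (B : ℤ) l = 0 := by
      rw [zero_add] at h2
      rcases mul_eq_zero.1 h2 with h | h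
      · exact absurd h hB
      · exact h
    have := zero_of_evZ B z l (by omega) h3
    simp [evR, this]

/-- digits (with offset `H`) obtained by repeated halving -/
def digs (B H : ℕ) : ℕ → ℕ → List ℤ
  | 0, X => [(X : ℤ) - H]
  | k + 1, X => digs B H k (X % B ^ 2 ^ k) ++ digs B H k (X / B ^ 2 ^ k)

/-- offset: `H (1 + B + ⋯ + B ^ (2 ^ k - 1))` -/
def off (B H : ℕ) : ℕ → ℕ
  | 0 => H
  | k + 1 => (1 + B ^ 2 ^ k) * off B H k

/-- sum of the absolute values of the digits -/
def sumU (B H : ℕ) : ℕ → ℕ → ℕ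
  | 0, X => (X - H) + (H - X)
  | k + 1, X => sumU B H k (X % B ^ 2 ^ k) + sumU B H k (X / B ^ 2 ^ k)

theorem length_digs (B H : ℕ) : ∀ k X, (digs B H k X).length = 2 ^ k
  | 0, X => rfl
  | k + 1, X => by
    rw [digs, List.length_append, length_digs B H k, length_digs B H k, pow_succ]
    ring

theorem evZ_append (B : ℤ) : ∀ l m : List ℤ, evZ B (l ++ m) = evZ B l + B ^ l.length * evZ B m
  | [], m => by simp [evZ]
  | a :: l, m => by
    simp only [List.cons_append, evZ, evZ_append B l m, List.length_cons, pow_succ]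
    ring

theorem l1_append : ∀ l m : List ℤ, l1 (l ++ m) = l1 l + l1 m
  | [], m => by simp [l1]
  | a :: l, m => by
    simp only [List.cons_append, l1, l1_append l m]
    ring

theorem evZ_digs (B H : ℕ) : ∀ k X, evZ (B : ℤ) (digs B H k X) = (X : ℤ) - off B H k
  | 0, X => by simp [digs, evZ, off]
  | k + 1, X => by
    rw [digs, evZ_append, evZ_digs B H k, evZ_digs B H k, length_digs, off]
    have h := Nat.mod_add_div X (B ^ 2 ^ k)
    have h' : ((X % B ^ 2 ^ k : ℕ) : ℤ) + (B : ℤ) ^ 2 ^ k * ((X / B ^ 2 ^ k : ℕ) : ℤ) = (X : ℤ) := by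
      exact_mod_cast h
    push_cast at h' ⊢
    linear_combination h'

theorem l1_digs (B H : ℕ) : ∀ k X, l1 (digs B H k X) = sumU B H k X
  | 0, X => by
    simp only [digs, l1, sumU]
    omega
  | k + 1, X => by
    rw [digs, l1_append, l1_digs B H k, l1_digs B H k, sumU]

/-- value at `B` of the polynomial with the packed coefficients `X` -/
def evD (B b h : ℕ) : ℕ → ℕ → ℤ
  | 0, X => (X : ℤ) - h
  | k + 1, X => evD B b h k (X % b ^ 2 ^ k) + ((B ^ 2 ^ k : ℕ) : ℤ) * evD B b h k (X / b ^ 2 ^ k)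

theorem evZ_digs' (B b h : ℕ) : ∀ k X, evZ (B : ℤ) (digs b h k X) = evD B b h k X
  | 0, X => by simp [digs, evZ, evD]
  | k + 1, X => by
    rw [digs, evZ_append, evZ_digs' B b h k, evZ_digs' B b h k, length_digs, evD]
    push_cast
    rfl

/-- certificate for the absence of zeros in the closed unit disc (Kronecker substitution) -/
theorem ev_ne_zero (u m : List ℤ) (eu em : ℤ) (d B k H X : ℕ)
    (hu' : evZ (B : ℤ) u = eu) (hm' : evZ (B : ℤ) m = em)
    (h0 : em * eu + (off B H k : ℕ) = (X : ℤ) + (d : ℤ))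
    (h1 : sumU B H k X < d)
    (h2 : l1 m * l1 u + 2 * d < B) (z : ℂ) (hz : ‖z‖ ≤ 1) : evR z u ≠ 0 := by
  intro hu
  set r := digs B H k X with hr
  have hr1 : l1 r < d := by rw [hr, l1_digs]; exact h1
  set l := addL (addL (mulL m u) [-(d : ℤ)]) (smulL (-1) r) with hl
  have hl1 : l1 l < B := by
    have e1 := l1_addL (addL (mulL m u) [-(d : ℤ)]) (smulL (-1) r)
    have e2 := l1_addL (mulL m u) [-(d : ℤ)]
    have e3 := l1_mulL m u
    rw [l1_smulL] at e1
    have e4 : l1 [-(d : ℤ)] = d := by simp [l1]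
    rw [e4] at e2
    have e5 : (-1 : ℤ).natAbs = 1 := rfl
    rw [e5, one_mul] at e1
    show l1 (addL (addL (mulL m u) [-(d : ℤ)]) (smulL (-1) r)) < B
    omega
  have hl2 : evZ (B : ℤ) l = 0 := by
    rw [← evR_eq_evZ, hl, evR_addL, evR_addL, evR_mulL, evR_smulL, evR_single, evR_eq_evZ,
      evR_eq_evZ, evR_eq_evZ, hr, evZ_digs, hu', hm']
    push_cast at h0 ⊢
    linear_combination h0
  have h3 := zero_of_evZ B z l hl1 hl2
  rw [hl, evR_addL, evR_addL, evR_mulL, evR_smulL, evR_single, hu] at h3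
  have h4 : evR z r = -(d : ℂ) := by
    push_cast at h3
    linear_combination -h3
  have h5 := norm_ev_le z hz r
  rw [h4, norm_neg, Complex.norm_natCast] at h5
  have : d ≤ l1 r := by exact_mod_cast h5
  omega

end Pool.Agent.Helper323.Choc
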